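import Mathlib

set_option autoImplicit false

namespace Pool.Agent.HS77

open Set

variable {k : Type*} [RCLike k] {V : Type*} [NormedAddCommGroup V] [NormedSpace k V]

/-- For a linear isometry `A`, `A - 1` is injective on its own range. -/
theorem sub_eq_zero_of_fixed (A : V ≃ₗᵢ[k] V) (x : V) (h : A (A x - x) = A x - x) :
    A x - x = 0 := by
  set y := A x - x with hy
  have h1 : ∀ n : ℕ, ‖x + (n : k) • y‖ = ‖x‖ := by
    intro n
    induction n with
    | zero => simp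
    | succ n ih =>
      have : A (x + (n : k) • y) = x + ((n + 1 : ℕ) : k) • y := by
        rw [map_add, map_smul, h]
        have : A x = x + y := by rw [hy]; abel
        rw [this]; push_cast; rw [add_smul, one_smul]; abel
      rw [← this, A.norm_map, ih]
  by_contra hne
  have hpos : 0 < ‖y‖ := norm_pos_iff.mpr hne
  obtain ⟨n, hn⟩ := exists_nat_gt (2 * ‖x‖ / ‖y‖)
  have h2 : ‖(n : k) • y‖ ≤ 2 * ‖x‖ := by
    have : (n : k) • y = (x + (n : k) • y) - x := by abel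
    rw [this]
    have := norm_sub_le (x + (n : k) • y) x
    rw [h1] at this
    linarith
  rw [norm_smul, RCLike.norm_natCast] at h2
  rw [div_lt_iff₀ hpos] at hn
  linarith

theorem exists_lower [FiniteDimensional k V] (A : V ≃ₗᵢ[k] V) :
    ∃ ν : ℝ, 0 < ν ∧ ν ≤ 1 ∧ ∀ x, ν * ‖A x - x‖ ≤ ‖A (A x - x) - (A x - x)‖ := by
  let T : V →ₗ[k] V := A.toLinearEquiv.toLinearMap - LinearMap.id
  have hT : ∀ x, T x = A x - x := fun x => rfl
  let T' : LinearMap.range T →ₗ[k] V := T.domRestrict _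
  have hk : LinearMap.ker T' = ⊥ := by
    rw [LinearMap.ker_eq_bot']
    rintro ⟨_, x, rfl⟩ h
    have h' : A (A x - x) - (A x - x) = 0 := h
    exact Subtype.ext (sub_eq_zero_of_fixed A x (sub_eq_zero.mp h'))
  obtain ⟨K, hK0, hK⟩ := T'.exists_antilipschitzWith hk
  refine ⟨min 1 (K : ℝ)⁻¹, lt_min one_pos (inv_pos.mpr hK0), min_le_left _ _, fun x => ?_⟩
  have h1 := hK.le_mul_norm (map_zero T') ⟨T x, x, rfl⟩
  have h2 : ‖A x - x‖ ≤ K * ‖A (A x - x) - (A x - x)‖ := h1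
  have hK' : (0 : ℝ) < K := hK0
  calc min 1 (K : ℝ)⁻¹ * ‖A x - x‖ ≤ (K : ℝ)⁻¹ * (K * ‖A (A x - x) - (A x - x)‖) :=
        mul_le_mul (min_le_right _ _) h2 (norm_nonneg _) (inv_pos.mpr hK').le
    _ = _ := by field_simp

/-- The commutator of two isometries close to the identity. -/
theorem comm_near (A B : V ≃ₗᵢ[k] V) {μ ε : ℝ} (hε : 0 ≤ ε) (hμ : 0 ≤ μ)
    (hA : ∀ v, ‖A v - v‖ ≤ μ * ‖v‖) (hB : ∀ v, ‖B v - v‖ ≤ ε * ‖v‖) (v : V) :
    ‖(A * B * A⁻¹ * B⁻¹) v - v‖ ≤ 2 * μ * ε * ‖v‖ := by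
  obtain ⟨w, rfl⟩ : ∃ w, v = B (A w) := ⟨A.symm (B.symm v), by simp⟩
  have h1 : (A * B * A⁻¹ * B⁻¹) (B (A w)) = A (B w) := by
    simp [LinearIsometryEquiv.coe_mul, LinearIsometryEquiv.inv_def]
  have h2 : A (B w) - B (A w) = (A (B w - w) - (B w - w)) - (B (A w - w) - (A w - w)) := by
    simp only [map_sub]; abel
  rw [h1, h2, B.norm_map, A.norm_map]
  have h3 := hA (B w - w)
  have h4 := hB (A w - w)
  have h5 := mul_le_mul_of_nonneg_left (hB w) hμ
  have h6 := mul_le_mul_of_nonneg_left (hA w) hε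
  have h7 := norm_sub_le (A (B w - w) - (B w - w)) (B (A w - w) - (A w - w))
  nlinarith

theorem exists_min_norm {Γ : Type*} (b : Γ → V) (S P : Set Γ) (hPS : P ⊆ S)
    (hfin : ∀ R : ℝ, (b '' S ∩ Metric.closedBall 0 R).Finite) (hP : P.Nonempty) :
    ∃ g ∈ P, ∀ h ∈ P, ‖b g‖ ≤ ‖b h‖ := by
  obtain ⟨g0, hg0⟩ := hP
  have hf : (b '' P ∩ Metric.closedBall 0 ‖b g0‖).Finite :=
    (hfin _).subset (inter_subset_inter_left _ (image_mono hPS))
  obtain ⟨_, ⟨⟨g, hg, rfl⟩, hg1⟩, hmin⟩ :=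
    hf.exists_minimalFor (fun v : V => ‖v‖) _ ⟨b g0, ⟨g0, hg0, rfl⟩, by simp⟩
  refine ⟨g, hg, fun h hh => ?_⟩
  have hg2 : ‖b g‖ ≤ ‖b g0‖ := by simpa using hg1
  by_contra hlt
  push Not at hlt
  have := hmin (j := b h) ⟨⟨h, hh, rfl⟩, by simpa using (hlt.le.trans hg2)⟩ hlt.le
  exact absurd this (not_le.mpr hlt)

/-- Buser's proof of the first Bieberbach theorem, inside a set `S` closed under commutators. -/
theorem buser [FiniteDimensional k V] {Γ : Type*} [Group Γ] (A : Γ →* (V ≃ₗᵢ[k] V)) (b : Γ → V)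
    (hb : ∀ g h, b (g * h) = A g (b h) + b g) (S : Set Γ)
    (hS : ∀ g ∈ S, ∀ h ∈ S, g * h * g⁻¹ * h⁻¹ ∈ S)
    (hfin : ∀ R : ℝ, (b '' S ∩ Metric.closedBall 0 R).Finite)
    (hdens : ∀ ε : ℝ, 0 < ε → ∃ R : ℝ, ∀ x : V, ∃ g ∈ S,
      (∀ v, ‖A g v - v‖ ≤ ε * ‖v‖) ∧ ‖b g - x‖ ≤ R)
    {g : Γ} (hg : g ∈ S) (hA : ∀ v, ‖A g v - v‖ ≤ 1 / 2 * ‖v‖) : A g = 1 := by
  by_contra hne
  obtain ⟨α, ⟨hαS, hαA, hα1⟩, hαmin⟩ := exists_min_norm b S
    {g | g ∈ S ∧ (∀ v, ‖A g v - v‖ ≤ 1 / 2 * ‖v‖) ∧ A g ≠ 1} (fun _ h => h.1) hfin ⟨g, hg, hA, hne⟩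
  obtain ⟨ν, hν0, hν1, hν⟩ := exists_lower (A α)
  set ε : ℝ := ν ^ 2 / 32 with hε
  have hε0 : 0 < ε := by positivity
  have hεν : ε ≤ ν / 32 := by rw [hε]; nlinarith
  obtain ⟨x, hx⟩ : ∃ x, A α x - x ≠ 0 := by
    by_contra h
    push Not at h
    exact hα1 (LinearIsometryEquiv.ext fun x => by simpa using sub_eq_zero.mp (h x))
  have hne2 : {h | h ∈ S ∧ (∀ v, ‖A h v - v‖ ≤ ε * ‖v‖) ∧ b h ≠ 0 ∧
      ν * ‖b h‖ ≤ 4 * ‖A α (b h) - b h‖}.Nonempty := by
    obtain ⟨R, hR⟩ := hdens ε hε0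
    have hy : 0 < ‖A α x - x‖ := norm_pos_iff.mpr hx
    obtain ⟨n, hn⟩ := exists_nat_gt ((|R| + 1) / (ν * ‖A α x - x‖))
    rw [div_lt_iff₀ (by positivity)] at hn
    set y := A α x - x with hyd
    obtain ⟨h, hh, hh1, hh2⟩ := hR ((n : k) • y)
    have hR' : ‖b h - (n : k) • y‖ ≤ |R| := hh2.trans (le_abs_self R)
    have e1 : ‖(n : k) • y‖ = n * ‖y‖ := by rw [norm_smul, RCLike.norm_natCast]
    have e2 : ‖b h‖ ≤ n * ‖y‖ + |R| := by
      have := norm_add_le ((n : k) • y) (b h - (n : k) • y)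
      rw [add_sub_cancel, e1] at this
      linarith
    have e3 : n * (ν * ‖y‖) ≤ ‖A α (b h) - b h‖ + 1 / 2 * |R| := by
      have e4 : (n : k) • (A α y - y) =
          (A α (b h) - b h) - (A α (b h - (n : k) • y) - (b h - (n : k) • y)) := by
        simp only [map_sub, map_smul, smul_sub]; abel
      have e5 := norm_sub_le (A α (b h) - b h) (A α (b h - (n : k) • y) - (b h - (n : k) • y))
      rw [← e4, norm_smul, RCLike.norm_natCast] at e5
      have e6 := hαA (b h - (n : k) • y)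
      have e7 := mul_le_mul_of_nonneg_left (hν x) (Nat.cast_nonneg (α := ℝ) n)
      linarith
    have hR0 := abs_nonneg R
    refine ⟨h, hh, hh1, fun h0 => ?_, ?_⟩
    · rw [h0] at e3
      simp at e3
      linarith
    · nlinarith
  obtain ⟨β, ⟨hβS, hβA, hβ0, hβc⟩, hβmin⟩ := exists_min_norm b S _ (fun _ h => h.1) hfin hne2
  set γ := α * β * α⁻¹ * β⁻¹ with hγ
  have hAγ : A γ = A α * A β * (A α)⁻¹ * (A β)⁻¹ := by simp [hγ]
  have hγA : ∀ v, ‖A γ v - v‖ ≤ ε * ‖v‖ := fun v => by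
    have := comm_near (A α) (A β) hε0.le (by norm_num) hαA hβA v
    rw [hAγ]; linarith
  have hbpos : 0 < ‖b β‖ := norm_pos_iff.mpr hβ0
  obtain ⟨r, hr, hr2⟩ : ∃ r, b γ = (A α (b β) - b β) + r ∧ ‖r‖ ≤ 2 * ε * ‖b β‖ := by
    have h1 : γ * (β * α) = α * β := by simp [hγ, mul_assoc]
    have h2 := hb γ (β * α)
    rw [h1, hb, hb, map_add] at h2
    have h3 : A γ (A β (b α)) = A α (A β ((A α).symm (b α))) := by
      simp [hAγ, LinearIsometryEquiv.coe_mul, LinearIsometryEquiv.inv_def]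
    refine ⟨-(A γ (b β) - b β) - A α (A β ((A α).symm (b α)) - (A α).symm (b α)), ?_, ?_⟩
    · rw [h3] at h2
      rw [map_sub, LinearIsometryEquiv.apply_symm_apply]
      have : b γ = A α (b β) + b α - (A α (A β ((A α).symm (b α))) + A γ (b β)) := by
        rw [h2]; abel
      rw [this]; abel
    · have h4 := norm_sub_le (-(A γ (b β) - b β))
        (A α (A β ((A α).symm (b α)) - (A α).symm (b α)))
      rw [norm_neg, LinearIsometryEquiv.norm_map] at h4
      have h5 := hγA (b β)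
      have h6 : ‖A β ((A α).symm (b α)) - (A α).symm (b α)‖ ≤ ε * ‖b β‖ := by
        by_cases hβ1 : A β = 1
        · rw [hβ1]; simp; positivity
        · have h7 := hαmin β ⟨hβS, fun v => (hβA v).trans
            (mul_le_mul_of_nonneg_right (by linarith) (norm_nonneg _)), hβ1⟩
          have h8 := hβA ((A α).symm (b α))
          rw [LinearIsometryEquiv.norm_map] at h8
          exact h8.trans (mul_le_mul_of_nonneg_left h7 hε0.le)
      linarith
  set t := ‖A α (b β) - b β‖ with ht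
  have f1 : ‖b γ‖ ≤ t + ‖r‖ := by rw [hr]; exact norm_add_le _ _
  have f2 : t ≤ 1 / 2 * ‖b β‖ := hαA _
  have f3 : ν * t ≤ ‖A α (b γ) - b γ‖ + 1 / 2 * ‖r‖ := by
    have e4 : A α (A α (b β) - b β) - (A α (b β) - b β) = (A α (b γ) - b γ) - (A α r - r) := by
      rw [hr]; simp only [map_sub, map_add]; abel
    have e5 := norm_sub_le (A α (b γ) - b γ) (A α r - r)
    have e6 := hν (b β)
    have e7 := hαA r
    rw [e4] at e6
    linarith
  have f4 : ‖r‖ ≤ ν * t / 4 := by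
    have : 2 * ε * ‖b β‖ = ν / 16 * (ν * ‖b β‖) := by rw [hε]; ring
    have h2 := mul_le_mul_of_nonneg_left hβc (by positivity : 0 ≤ ν / 16)
    linarith
  have ht0 : 0 < t := by nlinarith
  have f5 : 0 < ν * t := by positivity
  have f6 : ν * (ν * t) ≤ ν * t := by nlinarith
  have hmem := hβmin γ ⟨hS α hαS β hβS, hγA, fun h0 => ?_, ?_⟩
  · nlinarith
  · rw [h0] at f3
    simp at f3
    linarith
  · nlinarith

/-- A relatively dense set spans. -/
theorem span_eq_top_of_dense [FiniteDimensional k V] (s : Set V) {R : ℝ}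
    (hs : ∀ x : V, ∃ y ∈ s, ‖y - x‖ ≤ R) : Submodule.span k s = ⊤ := by
  rw [eq_top_iff]
  intro x _
  have hc : IsClosed ((Submodule.span k s : Submodule k V) : Set V) :=
    Submodule.closed_of_finiteDimensional _
  rw [← SetLike.mem_coe, ← hc.closure_eq, Metric.mem_closure_iff]
  intro ε hε
  obtain ⟨n, hn⟩ := exists_nat_gt (|R| / ε)
  have hn0 : (0 : ℝ) < n := lt_of_le_of_lt (by positivity) hn
  have hn1 : (n : k) ≠ 0 := by
    rw [Nat.cast_ne_zero]; exact_mod_cast hn0.ne'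
  obtain ⟨y, hy, hyx⟩ := hs ((n : k) • x)
  refine ⟨(n : k)⁻¹ • y, Submodule.smul_mem _ _ (Submodule.subset_span hy), ?_⟩
  have : x - (n : k)⁻¹ • y = -((n : k)⁻¹ • (y - (n : k) • x)) := by
    rw [smul_sub, inv_smul_smul₀ hn1]; abel
  rw [dist_eq_norm, this, norm_neg, norm_smul, norm_inv, RCLike.norm_natCast,
    inv_mul_lt_iff₀ hn0]
  rw [div_lt_iff₀ hε] at hn
  exact lt_of_le_of_lt (hyx.trans (le_abs_self R)) hn

section Cocycle

variable {Γ : Type*} [Group Γ] (A : Γ →* (V ≃ₗᵢ[k] V)) (b : Γ → V)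
  (hb : ∀ g h, b (g * h) = A g (b h) + b g)
include hb

theorem coc_one : b 1 = 0 := by
  have := hb 1 1
  simpa using this

theorem coc_inv (g : Γ) : A g (b g⁻¹) = -b g := by
  have := hb g g⁻¹
  rw [mul_inv_cancel, coc_one A b hb] at this
  exact eq_neg_of_add_eq_zero_left this.symm

/-- Conjugating a translation rotates its vector. -/
theorem coc_conj (g : Γ) {l : Γ} (hl : A l = 1) : b (g * l * g⁻¹) = A g (b l) := by
  rw [hb, hb, map_mul, hl, mul_one, coc_inv A b hb]; abel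

theorem coc_mul_transl {l : Γ} (hl : A l = 1) (h : Γ) : b (l * h) = b l + b h := by
  rw [hb, hl, add_comm]; rfl

/-- If a conjugation invariant set of translations is discrete and relatively dense, the linear
parts form a finite group. -/
theorem finite_range [FiniteDimensional k V] (L : Set Γ) (hL1 : ∀ l ∈ L, A l = 1)
    (hLc : ∀ g, ∀ l ∈ L, g * l * g⁻¹ ∈ L)
    (hfin : ∀ R : ℝ, (b '' L ∩ Metric.closedBall 0 R).Finite) {R : ℝ}
    (hdens : ∀ x : V, ∃ l ∈ L, ‖b l - x‖ ≤ R) : (range A).Finite := by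
  have hsp : Submodule.span k (b '' L) = ⊤ :=
    span_eq_top_of_dense (R := R) _ fun x => by
      obtain ⟨l, hl, h⟩ := hdens x
      exact ⟨b l, ⟨l, hl, rfl⟩, h⟩
  obtain ⟨t, ht, hts, hli⟩ := exists_linearIndependent k (b '' L)
  have htf : t.Finite := hli.setFinite
  have := htf.to_subtype
  refine Set.Finite.of_finite_image (f := fun (B : V ≃ₗᵢ[k] V) (v : t) => B v)
    ((Set.Finite.pi' (t := fun v : t => b '' L ∩ Metric.closedBall 0 ‖(v : V)‖)
      fun v => hfin _).subset ?_) ?_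
  · rintro _ ⟨_, ⟨g, rfl⟩, rfl⟩ v
    obtain ⟨l, hl, hlv⟩ := ht v.2
    refine ⟨⟨g * l * g⁻¹, hLc g l hl, ?_⟩, by simp⟩
    rw [coc_conj A b hb g (hL1 l hl), hlv]
  · intro B _ B' _ h
    have : B.toLinearEquiv.toLinearMap = B'.toLinearEquiv.toLinearMap :=
      LinearMap.ext_on (s := t) (hts.trans hsp) fun v hv => congrFun h ⟨v, hv⟩
    exact LinearIsometryEquiv.ext fun x => LinearMap.congr_fun this x

end Cocycle

end Pool.Agent.HS77
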